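import Pool.Agent.Q29.TE.Stm2

/-!
# Project TE (helper29), job TE-NORMAL (helper38)

If the stabilizers of the embeddings of a number field are trivial, it is normal.
-/

set_option autoImplicit false

namespace Pool.Agent.Q38.TE

open Pool.Agent.H204R3.CM Pool.Agent.TH170.MF

theorem t_NORMAL : Pool.Agent.Q29.TE.S_NORMAL := by
  intro F _ _ hst
  obtain ⟨L, hL1, hL2, j, hj⟩ := exists_galois (fun _ : Unit => F)
  obtain ⟨ψ⟩ : Nonempty (F →+* ℂ) := inferInstance
  obtain ⟨φ, hφ⟩ := hj () ψ
  let φA : F →ₐ[ℚ] L := RingHom.equivRatAlgHom F L φ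
  have hφA : ∀ x, φA x = φ x := fun x => rfl
  let K : IntermediateField ℚ L := φA.fieldRange
  have hK : ∀ x, φ x ∈ K := fun x => ⟨x, rfl⟩
  have hN : @Normal ℚ K _ _ (IntermediateField.algebra' K) := by
    refine IntermediateField.normal_iff_forall_map_le.mpr ?_
    rintro τ y ⟨x', ⟨x, rfl⟩, rfl⟩
    have h1 : τ (φ x) ∈ IntermediateField.fixedField (IntermediateField.fixingSubgroup K) := by
      rw [IntermediateField.mem_fixedField_iff]
      intro g hg
      obtain ⟨σ, hσ⟩ := Pool.Agent.H977R3.CM.exists_aut j (g : L ≃+* L)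
      obtain ⟨γ, hγ⟩ := exists_gal_smul F σ
      have hg' : ∀ z ∈ K, g z = z := by
        intro z hz
        exact (IntermediateField.mem_fixingSubgroup_iff K g).mp hg z hz
      have h2 : γ ∈ MulAction.stabilizer (Gal F) ψ := by
        rw [MulAction.mem_stabilizer_iff, hγ]
        ext z
        rw [← hφ]
        change σ (j (φ z)) = j (φ z)
        rw [hσ]
        exact congrArg j (hg' _ (hK z))
      have h3 : γ = 1 := by
        have h4 := Nat.card_eq_one_iff_unique.mp (hst ψ)
        have h5 := h4.1.elim (⟨γ, h2⟩ : MulAction.stabilizer (Gal F) ψ) 1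
        exact congrArg Subtype.val h5
      let ψ' : F →+* ℂ := j.comp ((τ : L →+* L).comp φ)
      have h6 := hγ ψ'
      rw [h3, one_smul] at h6
      have h7 := congrArg (fun f : F →+* ℂ => f x) h6
      change j (τ (φ x)) = σ (j (τ (φ x))) at h7
      rw [hσ] at h7
      exact (j.injective h7).symm
    rw [IsGalois.fixedField_fixingSubgroup] at h1
    exact h1
  let e : @AlgEquiv ℚ F K _ _ _ _ (IntermediateField.algebra' K) := AlgEquiv.ofInjectiveField φA
  exact Normal.of_algEquiv (h := hN) e.symm

end Pool.Agent.Q38.TE
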